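import Pool.Agent.H93.EL.Lin

/-!
# Module CUT: a cut of the `K`-blow-up is an average of cuts (MP_737bdd_co)

Every vertex `x` of `G` is replaced by `K` copies `(x, j)`; if every rounding of `S` is a line cut of
`G.V`, then `S` separates at most `2 M K²` ordered pairs of copies of adjacent vertices.
-/

set_option autoImplicit false

namespace Pool.Agent.H70.EH

open Finset Pool.Agent.H68 Pool.Agent.H93.EL
open scoped Classical

private theorem CUT_fiber {V : Type} [Fintype V] [DecidableEq V] {K : ℕ} {x y : V} (hxy : x ≠ y)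
    (a b : Fin K) : Fintype.card (V → Fin K) ≤
      K ^ 2 * (univ.filter fun φ : V → Fin K => φ x = a ∧ φ y = b).card := by
  have h := card_le_mul_card_image (f := fun φ : V → Fin K =>
    Function.update (Function.update φ x a) y b) (univ : Finset (V → Fin K)) (K ^ 2) (by
      intro ψ _
      calc (univ.filter fun φ : V → Fin K =>
            Function.update (Function.update φ x a) y b = ψ).card
          ≤ (univ : Finset (Fin K × Fin K)).card := by
            refine card_le_card_of_injOn (fun φ => (φ x, φ y)) (fun _ _ => mem_univ _) ?_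
            intro φ hφ φ' hφ' he
            have h1 : Function.update (Function.update φ x a) y b = ψ := by simpa using hφ
            have h2 : Function.update (Function.update φ' x a) y b = ψ := by simpa using hφ'
            have hx : φ x = φ' x := congrArg Prod.fst he
            have hy : φ y = φ' y := congrArg Prod.snd he
            funext z
            by_cases hzy : z = y
            · rw [hzy, hy]
            by_cases hzx : z = x
            · rw [hzx, hx]
            have h3 := congrFun (h1.trans h2.symm) z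
            simpa [Function.update_of_ne hzy, Function.update_of_ne hzx] using h3
        _ = K ^ 2 := by simp [sq])
  refine h.trans (Nat.mul_le_mul_left _ (card_le_card ?_))
  intro ψ hψ
  obtain ⟨φ, _, rfl⟩ := mem_image.1 hψ
  refine mem_filter.2 ⟨mem_univ _, ?_, ?_⟩
  · rw [Function.update_of_ne hxy, Function.update_self]
  · rw [Function.update_self]

theorem cutw (G : GeomHyp 2 2) {M : ℕ} (hM : Bd G M) {K : ℕ} (S : Finset (G.V × Fin K))
    (h : ∀ A : Finset (Pt 2), A ⊆ G.V → (∀ x : G.V, (∀ j, (x, j) ∈ S) → (x : Pt 2) ∈ A) →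
      (∀ x : G.V, (∀ j, (x, j) ∉ S) → (x : Pt 2) ∉ A) → IsCut G.V A) :
    (univ.filter fun z : (G.V × Fin K) × (G.V × Fin K) =>
      ((z.1.1 : Pt 2), (z.2.1 : Pt 2)) ∈ ord G ∧ ¬ (z.1 ∈ S ↔ z.2 ∈ S)).card ≤ 2 * M * K ^ 2 := by
  rcases Nat.eq_zero_or_pos K with hK | hK
  · subst hK
    have : (univ.filter fun z : (G.V × Fin 0) × (G.V × Fin 0) =>
      ((z.1.1 : Pt 2), (z.2.1 : Pt 2)) ∈ ord G ∧ ¬ (z.1 ∈ S ↔ z.2 ∈ S)) = ∅ :=
      filter_eq_empty_iff.2 fun z _ => z.1.2.elim0
    rw [this]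
    simp
  set T := univ.filter fun z : (G.V × Fin K) × (G.V × Fin K) =>
      ((z.1.1 : Pt 2), (z.2.1 : Pt 2)) ∈ ord G ∧ ¬ (z.1 ∈ S ↔ z.2 ∈ S) with hT
  have : Nonempty (Fin K) := ⟨⟨0, hK⟩⟩
  let A : (G.V → Fin K) → Finset (Pt 2) := fun φ =>
    (univ.filter fun x : G.V => (x, φ x) ∈ S).map (Function.Embedding.subtype _)
  have hmem : ∀ (φ : G.V → Fin K) (x : G.V), (x : Pt 2) ∈ A φ ↔ (x, φ x) ∈ S := by
    intro φ x
    constructor
    · intro hx
      obtain ⟨y, hy, hyx⟩ := mem_map.1 hx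
      have : y = x := Subtype.ext hyx
      subst this
      exact (mem_filter.1 hy).2
    · intro hx
      exact mem_map.2 ⟨x, mem_filter.2 ⟨mem_univ _, hx⟩, rfl⟩
  have hsub : ∀ φ, A φ ⊆ G.V := by
    intro φ p hp
    obtain ⟨y, _, hyx⟩ := mem_map.1 hp
    rw [← hyx]
    exact y.2
  have hcut : ∀ φ, IsCut G.V (A φ) := fun φ => h (A φ) (hsub φ)
    (fun x hx => (hmem φ x).2 (hx _)) (fun x hx hA => hx _ ((hmem φ x).1 hA))
  have h1 : ∀ φ : G.V → Fin K,
      (T.filter fun z => φ z.1.1 = z.1.2 ∧ φ z.2.1 = z.2.2).card ≤ 2 * M := by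
    intro φ
    refine le_trans ?_ (cut_le G (hcut φ) hM)
    refine card_le_card_of_injOn (fun z => ((z.1.1 : Pt 2), (z.2.1 : Pt 2))) ?_ ?_
    · intro z hz
      obtain ⟨hzT, hz1, hz2⟩ := mem_filter.1 (mem_coe.1 hz)
      obtain ⟨-, hzo, hzS⟩ := mem_filter.1 (hT ▸ hzT)
      refine mem_coe.2 (mem_filter.2 ⟨hzo, ?_⟩)
      show ¬ ((z.1.1 : Pt 2) ∈ A φ ↔ (z.2.1 : Pt 2) ∈ A φ)
      rw [hmem, hmem, hz1, hz2]
      exact hzS
    · intro z hz z' hz' he
      obtain ⟨-, hz1, hz2⟩ := mem_filter.1 (mem_coe.1 hz)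
      obtain ⟨-, hz1', hz2'⟩ := mem_filter.1 (mem_coe.1 hz')
      have e1 : z.1.1 = z'.1.1 := Subtype.ext (congrArg Prod.fst he)
      have e2 : z.2.1 = z'.2.1 := Subtype.ext (congrArg Prod.snd he)
      refine Prod.ext (Prod.ext e1 ?_) (Prod.ext e2 ?_)
      · rw [← hz1, ← hz1', e1]
      · rw [← hz2, ← hz2', e2]
  have h2 : ∀ z ∈ T, Fintype.card (G.V → Fin K) ≤ K ^ 2 *
      (univ.filter fun φ : G.V → Fin K => φ z.1.1 = z.1.2 ∧ φ z.2.1 = z.2.2).card := by
    intro z hz
    obtain ⟨-, hzo, -⟩ := mem_filter.1 (hT ▸ hz)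
    have hne : z.1.1 ≠ z.2.1 := by
      intro he
      have := (mem_offDiag.1 (mem_filter.1 hzo).1).2.2
      exact this (congrArg Subtype.val he)
    exact CUT_fiber hne _ _
  have h3 : ∑ z ∈ T, (univ.filter fun φ : G.V → Fin K => φ z.1.1 = z.1.2 ∧ φ z.2.1 = z.2.2).card
      = ∑ φ : G.V → Fin K, (T.filter fun z => φ z.1.1 = z.1.2 ∧ φ z.2.1 = z.2.2).card :=
    sum_card_bipartiteAbove_eq_sum_card_bipartiteBelow
      (fun (z : (G.V × Fin K) × (G.V × Fin K)) (φ : G.V → Fin K) =>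
        φ z.1.1 = z.1.2 ∧ φ z.2.1 = z.2.2)
  have h4 : T.card * Fintype.card (G.V → Fin K) ≤ (2 * M * K ^ 2) * Fintype.card (G.V → Fin K) := by
    calc T.card * Fintype.card (G.V → Fin K) = ∑ _z ∈ T, Fintype.card (G.V → Fin K) := by
          rw [sum_const, smul_eq_mul]
      _ ≤ ∑ z ∈ T, K ^ 2 *
          (univ.filter fun φ : G.V → Fin K => φ z.1.1 = z.1.2 ∧ φ z.2.1 = z.2.2).card :=
          sum_le_sum h2
      _ = K ^ 2 * ∑ φ : G.V → Fin K,
          (T.filter fun z => φ z.1.1 = z.1.2 ∧ φ z.2.1 = z.2.2).card := by rw [← mul_sum, h3]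
      _ ≤ K ^ 2 * ∑ _φ : G.V → Fin K, 2 * M := Nat.mul_le_mul_left _ (sum_le_sum fun φ _ => h1 φ)
      _ = (2 * M * K ^ 2) * Fintype.card (G.V → Fin K) := by
          rw [sum_const, smul_eq_mul, card_univ]; ring
  exact Nat.le_of_mul_le_mul_right h4 Fintype.card_pos

end Pool.Agent.H70.EH
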